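import Pool.Agent.helper50.PHN.Spec

/-!
# Project PHN (MP_f10000_nt), row ALP: properties of `iB` and `al`
-/

set_option autoImplicit false

namespace Pool.Agent.PHN

open Finset

theorem ALP_shift (D : Sys) (q : ℕ) (s : ℤ) (hs : ∀ i ∈ D.good, lp (D.m i) = q → (D.m i : ℤ) ∣ s) (x : ℤ) :
    D.iB q (x + s) = D.iB q x := by
  have h : (∃ i ∈ D.good, lp (D.m i) = q ∧ (D.m i : ℤ) ∣ (x + s) + D.c i) ↔
      ∃ i ∈ D.good, lp (D.m i) = q ∧ (D.m i : ℤ) ∣ x + D.c i := by
    constructor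
    · rintro ⟨i, hi, hq, hd⟩
      refine ⟨i, hi, hq, ?_⟩
      have h1 := dvd_sub hd (hs i hi hq)
      rwa [show x + s + D.c i - s = x + D.c i by ring] at h1
    · rintro ⟨i, hi, hq, hd⟩
      refine ⟨i, hi, hq, ?_⟩
      have h1 := dvd_add hd (hs i hi hq)
      rwa [show x + D.c i + s = x + s + D.c i by ring] at h1
  unfold Sys.iB
  by_cases h0 : ∃ i ∈ D.good, lp (D.m i) = q ∧ (D.m i : ℤ) ∣ x + D.c i
  · rw [if_pos (h.2 h0), if_pos h0]
  · rw [if_neg (fun h1 => h0 (h.1 h1)), if_neg h0]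

theorem ALP_01 (D : Sys) (q : ℕ) (x : ℤ) : D.iB q x = 0 ∨ D.iB q x = 1 := by
  unfold Sys.iB
  split_ifs
  · exact Or.inr rfl
  · exact Or.inl rfl

theorem ALP_al (D : Sys) (q : ℕ) (s : ℤ) (hs : ∀ x, D.iB q (x + s) = D.iB q x) (x : ℤ) :
    D.al q (x + s) = D.al q x := by
  unfold Sys.al AV
  congr 1
  refine sum_congr rfl fun t _ => ?_
  rw [show x + s + (t : ℤ) * (uu D.T q : ℤ) = (x + (t : ℤ) * (uu D.T q : ℤ)) + s by ring]
  exact hs _

theorem ALP (hUUD : UUD_stmt) (hMAV : MAV_stmt) : ALP_stmt := by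
  classical
  intro D q hq hq0
  obtain ⟨hT, _, hm, _, hu, _⟩ := hUUD.2 D
  have hper : ∀ x, D.iB q (x + D.T) = D.iB q x := fun x =>
    ALP_shift D q _ (fun i hi _ => Int.natCast_dvd_natCast.2 (hm i (D.gS hi))) x
  have hinv : ∀ p, p.Prime → q < p → ∀ x, D.iB q (x + uu D.T p) = D.iB q x := fun p hp hqp x =>
    ALP_shift D q _ (fun i hi hl => Int.natCast_dvd_natCast.2 (hu i (D.gS hi) p hp (by omega))) x
  refine ⟨fun x => ⟨hper x, ALP_01 D q x⟩, ALP_al D q _ hper, hinv, ?_, ?_⟩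
  · intro p hp hqp x
    rcases Nat.lt_or_ge q p with h | h
    · exact ALP_al D q _ (hinv p hp h) x
    · have h1 : p = q := le_antisymm h hqp
      subst h1
      exact (hMAV D.T (p ^ D.T.factorization p) (uu D.T p) (D.iB p) (D.iB p) hT
        (hUUD.1 D.T p hT hp).1 hper hper).1 x
  · intro x
    have hQ : 0 < q ^ D.T.factorization q := pow_pos hq.pos _
    have hQ' : (0 : ℝ) < ((q ^ D.T.factorization q : ℕ) : ℝ) := by exact_mod_cast hQ
    unfold Sys.al AV
    constructor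
    · refine div_nonneg (sum_nonneg fun t _ => ?_) hQ'.le
      rcases ALP_01 D q (x + t * (uu D.T q : ℤ)) with h | h <;> rw [h]
      exact zero_le_one
    · rw [div_le_one hQ']
      refine (sum_le_sum (g := fun _ => (1 : ℝ)) fun t _ => ?_).trans ?_
      · rcases ALP_01 D q (x + t * (uu D.T q : ℤ)) with h | h <;> rw [h]
        exact zero_le_one
      · rw [sum_const, card_range, nsmul_eq_mul, mul_one]

end Pool.Agent.PHN
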